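import Mathlib

open Set Cardinal Ordinal

namespace H68.TP

section forcing

variable {P : Type*} [Preorder P] {L : Type*}

/-- `N : L → Set P` is regarded as the `P`-name `{(α̌, c) : c ∈ N α}` for a subset of `L`.
`ForcesMem N p α` says that `p` forces `α` to belong to it. -/
def ForcesMem (N : L → Set P) (p : P) (α : L) : Prop :=
  ∀ q ≤ p, ∃ r ≤ q, ∃ c ∈ N α, r ≤ c

/-- `p` forces that `α` does not belong to the set named by `N`: no extension of `p` forces that it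
does. -/
def ForcesNotMem (N : L → Set P) (p : P) (α : L) : Prop :=
  ∀ q ≤ p, ¬ ForcesMem N q α

/-- `p` forces that the set named by `N` is equal to `a` on the set `D`. -/
def ForcesEqOn (N : L → Set P) (p : P) (D : Set L) (a : Set L) : Prop :=
  ∀ α ∈ D, (α ∈ a → ForcesMem N p α) ∧ (α ∉ a → ForcesNotMem N p α)

/-- `P` adds a fresh subset of the linear order (ordinal) `L`: some condition `p` and some name `N`
for a subset `A` of `L` are such that `p` forces `A ∩ β ∈ V` for every `β` in `L`, and `p`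
forces `A ∉ V`. -/
def AddsFresh (P : Type*) [Preorder P] (L : Type*) [LinearOrder L] : Prop :=
  ∃ (p : P) (N : L → Set P),
    (∀ β : L, ∀ q ≤ p, ∃ r ≤ q, ∃ a : Set L, ForcesEqOn N r (Iio β) a) ∧
    (∀ q ≤ p, ∀ a : Set L, ¬ ForcesEqOn N q univ a)

theorem ForcesMem.mono {N : L → Set P} {p q : P} {α : L} (h : ForcesMem N p α) (hq : q ≤ p) :
    ForcesMem N q α := fun r hr => h r (hr.trans hq)

theorem ForcesNotMem.mono {N : L → Set P} {p q : P} {α : L} (h : ForcesNotMem N p α)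
    (hq : q ≤ p) : ForcesNotMem N q α := fun r hr => h r (hr.trans hq)

theorem not_both {N : L → Set P} {p q r : P} {α : L} (h : ForcesMem N p α)
    (h' : ForcesNotMem N q α) (hp : r ≤ p) (hq : r ≤ q) : False :=
  h' r hq (h.mono hp)

theorem exists_notMem {N : L → Set P} {q : P} {α : L} (h : ¬ ForcesMem N q α) :
    ∃ r ≤ q, ForcesNotMem N r α := by
  unfold ForcesMem at h
  push Not at h
  obtain ⟨r, hr, h2⟩ := h
  refine ⟨r, hr, ?_⟩
  intro q' hq' h3
  obtain ⟨r', hr', c, hc, hrc⟩ := h3 q' le_rfl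
  exact h2 r' (hr'.trans hq') c hc hrc

theorem exists_mem {N : L → Set P} {q : P} {α : L} (h : ¬ ForcesNotMem N q α) :
    ∃ r ≤ q, ForcesMem N r α := by
  unfold ForcesNotMem at h
  push Not at h
  exact h

/-- A poset which is the union of at most `κ` many linked sets adds no fresh subset of `L` if
every subset of `L` of size at most `κ` is strictly bounded. -/
theorem not_addsFresh_of_linked {P : Type*} [Preorder P] {L : Type*} [LinearOrder L]
    {ι : Type*} (f : P → ι) (hf : ∀ p q, f p = f q → ∃ r, r ≤ p ∧ r ≤ q)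
    (hL : ∀ g : ι × ι → L, ∃ b, ∀ x, g x < b) (hL2 : ∀ a : L, ∃ b, a < b) :
    ¬ AddsFresh P L := by
  classical
  rintro ⟨p, N, h1, h2⟩
  set A : ι → Set L := fun i => {α | ∃ r ≤ p, f r = i ∧ ForcesMem N r α} with hA
  have hAeq : ∀ r ≤ p, ∀ β a, ForcesEqOn N r (Iio β) a → ∀ α < β, (α ∈ a ↔ α ∈ A (f r)) := by
    intro r hr β a h α hα
    constructor
    · intro hαa
      exact ⟨r, hr, rfl, (h α hα).1 hαa⟩
    · rintro ⟨r', _, hfr, hm⟩
      by_contra hαa
      obtain ⟨s, hs1, hs2⟩ := hf r' r hfr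
      exact not_both hm ((h α hα).2 hαa) hs1 hs2
  by_cases hne : Nonempty L
  swap
  · exact h2 p le_rfl ∅ (fun α => absurd ⟨α⟩ hne)
  obtain ⟨l₀⟩ := hne
  set d : ι × ι → L := fun x =>
    if h : ∃ α, ¬ (α ∈ A x.1 ↔ α ∈ A x.2) then h.choose else l₀ with hd
  have hdspec : ∀ i j, (∃ α, ¬ (α ∈ A i ↔ α ∈ A j)) → ¬ (d (i, j) ∈ A i ↔ d (i, j) ∈ A j) := by
    intro i j h
    have : d (i, j) = h.choose := dif_pos h
    rw [this]
    exact h.choose_spec
  obtain ⟨δ, hδ⟩ := hL d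
  obtain ⟨r, hr, a, ha⟩ := h1 δ p le_rfl
  have hrA := hAeq r hr δ a ha
  have h3 : ∃ q ≤ r, ∃ α, (α ∈ A (f r) ∧ ForcesNotMem N q α) ∨
      (α ∉ A (f r) ∧ ForcesMem N q α) := by
    have h4 := h2 r hr (A (f r))
    unfold ForcesEqOn at h4
    push Not at h4
    obtain ⟨α, _, h5⟩ := h4
    by_cases h6 : α ∈ A (f r) → ForcesMem N r α
    · obtain ⟨h7, h8⟩ := h5 h6
      obtain ⟨q, hq, h9⟩ := exists_mem h8
      exact ⟨q, hq, α, Or.inr ⟨h7, h9⟩⟩
    · push Not at h6
      obtain ⟨q, hq, h9⟩ := exists_notMem h6.2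
      exact ⟨q, hq, α, Or.inl ⟨h6.1, h9⟩⟩
  obtain ⟨q, hqr, α, hα⟩ := h3
  obtain ⟨γ, hγ⟩ := hL2 (max α δ)
  have hαγ : α < γ := lt_of_le_of_lt (le_max_left _ _) hγ
  have hδγ : δ < γ := lt_of_le_of_lt (le_max_right _ _) hγ
  obtain ⟨q', hq', a', ha'⟩ := h1 γ q (hqr.trans hr)
  have hqA := hAeq q' (hq'.trans (hqr.trans hr)) γ a' ha'
  have hdiff : ∃ α, ¬ (α ∈ A (f r) ↔ α ∈ A (f q')) := by
    refine ⟨α, ?_⟩
    rcases hα with ⟨h4, h5⟩ | ⟨h4, h5⟩
    · intro h6
      have h7 : α ∈ a' := (hqA α hαγ).2 (h6.1 h4)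
      exact not_both ((ha' α hαγ).1 h7) (h5.mono hq') le_rfl le_rfl
    · intro h6
      have h7 : α ∉ a' := fun h8 => h4 (h6.2 ((hqA α hαγ).1 h8))
      exact not_both (h5.mono hq') ((ha' α hαγ).2 h7) le_rfl le_rfl
  have h4 := hdspec _ _ hdiff
  have h5 := hδ (f r, f q')
  set e := d (f r, f q') with he
  apply h4
  constructor
  · intro h6
    by_contra h7
    have h8 : e ∈ a := (hrA e h5).2 h6
    have h9 : e ∉ a' := fun h10 => h7 ((hqA e (h5.trans hδγ)).1 h10)
    exact not_both (((ha e h5).1 h8).mono (hq'.trans hqr)) ((ha' e (h5.trans hδγ)).2 h9)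
      le_rfl le_rfl
  · intro h6
    by_contra h7
    have h8 : e ∈ a' := (hqA e (h5.trans hδγ)).2 h6
    have h9 : e ∉ a := fun h10 => h7 ((hrA e h5).1 h10)
    exact not_both ((ha' e (h5.trans hδγ)).1 h8) (((ha e h5).2 h9).mono (hq'.trans hqr))
      le_rfl le_rfl

end forcing

end H68.TP
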