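import Pool.Agent.H68.TP.Fresh

open Set Cardinal Ordinal

universe u

namespace H68.TP

/-- A condition of tree Prikry forcing over a filter `U` on the linear order `A`: a stem and a tree
of finite increasing sequences with that stem, all of whose nodes extending the stem have a set of
successors in `U`. -/
structure TreePrikry {A : Type u} [LinearOrder A] (U : Filter A) where
  stem : List A
  tree : Set (List A)
  stem_mem : stem ∈ tree
  closed : ∀ t ∈ tree, ∀ r, r <+: t → r ∈ tree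
  increasing : ∀ t ∈ tree, t.Pairwise (· < ·)
  comparable : ∀ t ∈ tree, t <+: stem ∨ stem <+: t
  large : ∀ t ∈ tree, stem <+: t → {α | t ++ [α] ∈ tree} ∈ U

variable {A : Type u} [LinearOrder A] {U : Filter A}

/-- `(t, S) ≤ (s, T)` iff `t ∈ T`, `t` end-extends `s` and `S ⊆ T`. -/
instance : Preorder (TreePrikry U) where
  le q p := q.stem ∈ p.tree ∧ p.stem <+: q.stem ∧ q.tree ⊆ p.tree
  le_refl p := ⟨p.stem_mem, List.prefix_rfl, Subset.rfl⟩
  le_trans p q r h1 h2 := ⟨h2.2.2 h1.1, h2.2.1.trans h1.2.1, h1.2.2.trans h2.2.2⟩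

theorem compatible_of_stem (p q : TreePrikry U) (h : p.stem = q.stem) :
    ∃ r : TreePrikry U, r ≤ p ∧ r ≤ q := by
  refine ⟨⟨p.stem, p.tree ∩ q.tree, ⟨p.stem_mem, h ▸ q.stem_mem⟩, ?_, ?_, ?_, ?_⟩, ?_, ?_⟩
  · rintro t ⟨h1, h2⟩ r hr
    exact ⟨p.closed t h1 r hr, q.closed t h2 r hr⟩
  · rintro t ⟨h1, _⟩
    exact p.increasing t h1
  · rintro t ⟨h1, _⟩
    exact p.comparable t h1
  · rintro t ⟨h1, h2⟩ hst
    filter_upwards [p.large t h1 hst, q.large t h2 (h ▸ hst)] with α ha hb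
    exact ⟨ha, hb⟩
  · exact ⟨p.stem_mem, List.prefix_rfl, inter_subset_left⟩
  · refine ⟨?_, ?_, inter_subset_right⟩
    · show p.stem ∈ q.tree
      rw [h]; exact q.stem_mem
    · show q.stem <+: p.stem
      rw [h]

theorem not_addsFresh (κ : Cardinal.{u}) (hκ : ℵ₀ ≤ κ) (U : Filter κ.ord.ToType) (l : Ordinal.{u})
    (hl : κ < l.cof) : ¬ AddsFresh (TreePrikry U) l.ToType := by
  have hbd : ∀ (ι : Type u) (g : ι → l.ToType), #ι ≤ κ → ∃ b, ∀ x, g x < b := by
    intro ι g hι
    by_contra hcon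
    push Not at hcon
    have h1 : l.cof ≤ #(range g) := by
      rw [← Ordinal.cof_toType]
      apply Order.cof_le
      intro b
      obtain ⟨x, hx⟩ := hcon b
      exact ⟨g x, ⟨x, rfl⟩, hx⟩
    exact absurd (h1.trans (Cardinal.mk_range_le.trans hι)) (not_le.2 hl)
  have hA : #(κ.ord.ToType) = κ := by simp
  have hLA : #(List κ.ord.ToType) ≤ κ := by
    have : Infinite κ.ord.ToType := by
      rw [Cardinal.infinite_iff, hA]; exact hκ
    rw [Cardinal.mk_list_eq_mk, hA]
  refine not_addsFresh_of_linked (fun p : TreePrikry U => p.stem) compatible_of_stem ?_ ?_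
  · intro g
    apply hbd _ g
    rw [Cardinal.mk_prod, Cardinal.lift_id]
    calc _ ≤ κ * κ := by gcongr
      _ = κ := Cardinal.mul_eq_self hκ
  · intro a
    obtain ⟨b, hb⟩ := hbd PUnit (fun _ => a) (by
      rw [Cardinal.mk_punit]; exact (Cardinal.one_le_aleph0).trans hκ)
    exact ⟨b, hb PUnit.unit⟩

end H68.TP
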